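import Pool.Agent.U722.FF.Stm

/-!
Project FF, package SMALL: the trivial group, isomorphic groups, comparison with `FFle`.
-/

set_option autoImplicit false
set_option linter.unusedSectionVars false

namespace Pool.Agent.U637.FFP

open TH57.FF U722.FF

/-- finite free resolutions and ring isomorphisms -/
theorem FR_ringEquiv : ∀ (n : ℕ) {R S : Type} [Ring R] [Ring S] (E : R ≃+* S) {M N : Type}
    [AddCommGroup M] [Module R M] [AddCommGroup N] [Module S N] (a : M ≃+ N)
    (_ : ∀ (r : R) (m : M), a (r • m) = E r • a m), FR R n M → FR S n N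
  | 0, R, S, _, _, E, M, N, _, _, _, _, a, ha, h => by
    obtain ⟨h1, h2⟩ := h
    have i3 : RingHomInvPair (E : R →+* S) (E.symm : S →+* R) := RingHomInvPair.of_ringEquiv E
    have i4 : RingHomInvPair (E.symm : S →+* R) (E : R →+* S) := RingHomInvPair.symm _ _
    let a' : LinearEquiv (E : R →+* S) (σ' := (E.symm : S →+* R)) M N := { a with map_smul' := ha }
    refine ⟨?_, ?_⟩
    · have := h1
      exact Module.Finite.of_surjective (σ := (E : R →+* S)) a'.toLinearMap a'.surjective
    · have := h2
      exact Module.Free.of_equiv a'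
  | n + 1, R, S, _, _, E, M, N, _, _, _, _, a, ha, h => by
    obtain ⟨ι, i1, f, hf, h1⟩ := h
    let f' : (ι → S) →ₗ[S] N :=
      { toFun := fun y => a (f (fun i => E.symm (y i)))
        map_add' := by
          intro x y
          rw [← map_add, ← map_add]
          congr 2
          funext i
          simp
        map_smul' := by
          intro s y
          have h2 : (fun i => E.symm ((s • y) i)) = E.symm s • (fun i => E.symm (y i)) := by
            funext i
            simp
          rw [h2, map_smul, ha, RingEquiv.apply_symm_apply, RingHom.id_apply] }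
    have hf' : ∀ y, f' y = a (f (fun i => E.symm (y i))) := fun _ => rfl
    refine ⟨ι, i1, f', ?_, ?_⟩
    · intro m
      obtain ⟨x, hx⟩ := hf (a.symm m)
      refine ⟨fun i => E (x i), ?_⟩
      rw [hf']
      have h2 : (fun i => E.symm (E (x i))) = x := by
        funext i
        simp
      rw [h2, hx]
      simp
    · let b : LinearMap.ker f ≃+ LinearMap.ker f' :=
        { toFun := fun x => ⟨fun i => E (x.1 i), by
            rw [LinearMap.mem_ker, hf']
            have h2 : (fun i => E.symm (E (x.1 i))) = x.1 := by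
              funext i
              simp
            rw [h2, LinearMap.mem_ker.1 x.2, map_zero]⟩
          invFun := fun y => ⟨fun i => E.symm (y.1 i), by
            rw [LinearMap.mem_ker]
            have h2 := LinearMap.mem_ker.1 y.2
            rw [hf'] at h2
            exact a.map_eq_zero_iff.1 h2⟩
          left_inv := by
            intro x
            ext i
            simp
          right_inv := by
            intro x
            ext i
            simp
          map_add' := by
            intro x y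
            ext i
            simp }
      refine FR_ringEquiv n E b ?_ h1
      intro r m
      ext i
      change E (r * m.1 i) = E r * E (m.1 i)
      rw [map_mul]

theorem of_smul_unit (G : Type) [Group G] (g : G) (m : PM G PUnit.{1}) :
    MonoidAlgebra.of ℤ G g • m = m := by
  rw [of_smul]
  have h : (fun x : PUnit.{1} => g • x) = id := by
    funext x
    exact Subsingleton.elim _ _
  rw [h, Finsupp.mapDomain_id]

theorem t_ISO : S_ISO := by
  intro G H _ _ e ⟨n, h⟩
  let a : PM G PUnit.{1} ≃+ PM H PUnit.{1} := AddEquiv.refl (PUnit.{1} →₀ ℤ)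
  refine ⟨n, FR_ringEquiv n (MonoidAlgebra.mapDomainRingEquiv ℤ e) a ?_ h⟩
  intro r m
  induction r using MonoidAlgebra.induction_on with
  | of g =>
    have h1 : MonoidAlgebra.mapDomainRingEquiv ℤ e (MonoidAlgebra.of ℤ G g) =
        MonoidAlgebra.of ℤ H (e g) := by
      simp [MonoidAlgebra.of]
    rw [h1, of_smul_unit, of_smul_unit]
  | add x y hx hy => rw [add_smul, map_add, map_add, add_smul, hx, hy]
  | smul z x hx =>
    rw [smul_assoc, map_zsmul, hx, map_zsmul (MonoidAlgebra.mapDomainRingEquiv ℤ e), smul_assoc]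

theorem exists_int (G : Type) [Group G] [Subsingleton G] (r : MonoidAlgebra ℤ G) :
    ∃ z : ℤ, r = z • (1 : MonoidAlgebra ℤ G) := by
  induction r using MonoidAlgebra.induction_on with
  | of g =>
    refine ⟨1, ?_⟩
    rw [one_smul, Subsingleton.elim g 1, map_one]
  | add x y hx hy =>
    obtain ⟨a, rfl⟩ := hx
    obtain ⟨b, rfl⟩ := hy
    exact ⟨a + b, by rw [add_smul]⟩
  | smul z x hx =>
    obtain ⟨a, rfl⟩ := hx
    exact ⟨z * a, by rw [mul_smul]⟩

theorem zsmul_pt (G : Type) (z : ℤ) :
    z • pt G PUnit.unit.{1} = (Finsupp.single PUnit.unit.{1} z : PUnit.{1} →₀ ℤ) := by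
  change z • (Finsupp.single PUnit.unit.{1} 1 : PUnit.{1} →₀ ℤ) = _
  simp

theorem t_TRIV : S_TRIV := by
  intro G _ _
  let f : MonoidAlgebra ℤ G →ₗ[MonoidAlgebra ℤ G] PM G PUnit.{1} :=
    LinearMap.toSpanSingleton _ _ (pt G PUnit.unit.{1})
  have hf : ∀ z : ℤ, f (z • (1 : MonoidAlgebra ℤ G)) =
      (Finsupp.single PUnit.unit.{1} z : PUnit.{1} →₀ ℤ) := by
    intro z
    change (z • (1 : MonoidAlgebra ℤ G)) • pt G PUnit.unit.{1} = _
    rw [smul_assoc, one_smul, zsmul_pt]
  refine ⟨0, FR_equiv 0 (LinearEquiv.ofBijective f ⟨?_, ?_⟩)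
    ⟨Module.Finite.self _, Module.Free.self _⟩⟩
  · rw [injective_iff_map_eq_zero]
    intro r hr
    obtain ⟨z, rfl⟩ := exists_int G r
    rw [hf z] at hr
    have h1 : (Finsupp.single PUnit.unit.{1} z : PUnit.{1} →₀ ℤ) = 0 := hr
    rw [Finsupp.single_eq_zero] at h1
    rw [h1, zero_smul]
  · intro m
    refine ⟨((show PUnit.{1} →₀ ℤ from m) PUnit.unit) • (1 : MonoidAlgebra ℤ G), ?_⟩
    rw [hf]
    exact Finsupp.ext fun x => by simp

theorem t_FF : S_FF := by
  intro G _ ⟨n, h⟩
  obtain ⟨P, i1, i2, d, ε, h1, h2, h3, h4, h5, h6⟩ := seq_of_FR n _ h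
  let ev : PM G PUnit.{1} ≃+ ℤ := (Finsupp.uniqueAddEquiv PUnit.unit.{1} : (PUnit.{1} →₀ ℤ) ≃+ ℤ)
  refine ⟨n, P, i1, i2, d, ev.toAddMonoidHom.comp ε.toAddMonoidHom, h1, h2, h3, ?_, ?_, ?_, h6⟩
  · intro g x
    change ev (ε (MonoidAlgebra.of ℤ G g • x)) = ev (ε x)
    rw [map_smul, of_smul_unit]
  · exact ev.surjective.comp h4
  · intro x
    rw [← h5]
    change ev (ε x) = 0 ↔ ε x = 0
    exact ev.map_eq_zero_iff

end Pool.Agent.U637.FFP
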